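import Pool.Agent.Y271.RO.Stm

/-!
Project RO, statement MV: the vectors `h(φ) x` (written by helper510 for helper271).
-/

set_option autoImplicit false

namespace Pool.Agent.Y510.RO.MV

open MeasureTheory Set Metric Filter Topology
open scoped InnerProductSpace ENNReal NNReal ComplexConjugate
open Pool.Agent.Y283.NK Pool.Agent.Y271.RO

theorem mem {S : Type} [MeasurableSpace S] {μ : Measure S} {φ : S → ℂ} (hφ : Measurable φ)
    (x : Lp ℂ 2 μ) (h : ℂ → ℂ) (M : ℝ) (hh : Measurable h) (hb : ∀ s, ‖h (φ s)‖ ≤ M) :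
    MemLp (fun s => h (φ s) * x s) 2 μ := by
  refine MemLp.of_le_mul (c := M) (Lp.memLp x)
    ((hh.comp hφ).aestronglyMeasurable.mul (Lp.aestronglyMeasurable x))
    (Eventually.of_forall fun s => ?_)
  rw [norm_mul]
  exact mul_le_mul_of_nonneg_right (hb s) (norm_nonneg _)

theorem mv_ae {S : Type} [MeasurableSpace S] {μ : Measure S} {φ : S → ℂ} (hφ : Measurable φ)
    (x : Lp ℂ 2 μ) (h : ℂ → ℂ) (M : ℝ) (hh : Measurable h) (hb : ∀ s, ‖h (φ s)‖ ≤ M) :
    ⇑(mv φ x h) =ᵐ[μ] fun s => h (φ s) * x s := by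
  unfold mv
  rw [dif_pos (mem hφ x h M hh hb)]
  exact MemLp.coeFn_toLp _

theorem main : Pool.Agent.Y271.RO.S_MV := by
  intro S _ μ _ φ N hN x h M hh hM hb
  have hφ := hN.meas
  have e := mv_ae hφ x h M hh hb
  refine ⟨e, ?_, ?_, ?_⟩
  · refine Lp.norm_le_mul_norm_of_ae_le_mul ?_
    filter_upwards [e] with s hs
    rw [hs, norm_mul]
    exact mul_le_mul_of_nonneg_right (hb s) (norm_nonneg _)
  · obtain ⟨M', hM'⟩ := hN.bdd
    have hM0 : ∀ s, ‖(fun z => z * h z) (φ s)‖ ≤ M' * M := by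
      intro s
      show ‖φ s * h (φ s)‖ ≤ M' * M
      rw [norm_mul]
      exact mul_le_mul (hM' s) (hb s) (norm_nonneg _) ((norm_nonneg _).trans (hM' s))
    have e2 := mv_ae hφ x (fun z => z * h z) (M' * M) (measurable_id.mul hh) hM0
    refine Lp.ext ?_
    filter_upwards [e, e2, hN.eq (mv φ x h)] with s h1 h2 h3
    rw [h3, h1, h2]
    ring
  · intro w
    rw [MeasureTheory.L2.inner_def]
    refine integral_congr_ae ?_
    filter_upwards [e] with s hs
    rw [hs, RCLike.inner_apply, mul_comm]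

end Pool.Agent.Y510.RO.MV
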